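import Pool.Agent.Run7.h702.BC.N

set_option autoImplicit false

/-!
# A Borel-Cantelli lemma for the orbits of the `3x+d` maps

Let `d` be odd and prime to `3`. A set `A` of integers is `s`-small if, for all large `X`, its elements `x` with
`√X ≤ |x| ≤ X` lie in at most `D M / (log X)^s` residue classes modulo some `M ≤ √X` prime to `3`. The orbit of `x` passes
through all the scales between `x` and `1`, with `O(1)` terms on the scale of `e^l` for each `l`; a set given by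
congruences of density `(log X)^(-s)` should be met on the scale of `X = e^l` with the probability `l^(-s)`.

(1) If `A` is `s`-small for some `s > 1`, then all but `K N / (log Y)^η` of the integers `|x| ≤ N` have an orbit which
avoids `A` until it takes a value of absolute value less than `Y`, for all `Y` and `N`.

(2) So the orbit of almost every integer `x` avoids `A` until it takes a value smaller than `F(|x|)`, for every function
`F` which tends to infinity.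

(3) The bound `s > 1` is sharp: for all `ε` and every sequence `α_m` of integers, the orbit of almost every `x` has a
term `y`, before any value smaller than `√|x|`, with `y ≡ α_m` modulo `2^m` for some `m ≥ (1 - ε) log₂ log |y|`.

(4) For all the `q ≥ 2` prime to `3` and all the `q`-adic integers `α = lim α_m`: in the orbit of almost every `x`, down to
its first value smaller than `F(|x|)`, EVERY term `y` has a `q`-adic distance of at least `(log |y|)^(-(1 + ε))` from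
`α`: if `y ≡ α_m` modulo `q^m`, then `m ≤ (1 + ε) log_q log |y|`. (For `q = 2` this is sharp, by (3).)

The proof in `Run7/h702/AT`, `BC`, from the mixing of the Syracuse random variables (starting libraries `H499R2`,
`R344/TH`), gives the exponent `1 + ε`, while the starting results on thin sets have `exp (- (log X)^δ)`.
-/

namespace Pool.Agent.Results.MP_d0d59f_nt.BorelCantelliLemma

open Filter Topology

/-- The `3x+d` map on the integers. -/
def T (d x : ℤ) : ℤ := if x % 2 = 0 then x / 2 else (3 * x + d) / 2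

/-- `A` is `s`-small: for large `X` the elements `x` of `A` with `√X ≤ |x| ≤ X` lie in at most `D M / (log X) ^ s` residue
classes modulo some `M ≤ √X` prime to `3`. -/
def Small (s : ℝ) (A : Set ℤ) : Prop :=
  ∃ D X₀ : ℝ, ∀ X : ℝ, X₀ ≤ X → ∃ M : ℕ, 0 < M ∧ Nat.Coprime M 3 ∧ (M : ℝ) ≤ Real.sqrt X ∧
    ∃ R : Finset ℤ, (R.card : ℝ) ≤ D * M / (Real.log X) ^ s ∧
      ∀ x ∈ A, Real.sqrt X ≤ |(x : ℝ)| → |(x : ℝ)| ≤ X → ∃ r ∈ R, x ≡ r [ZMOD M]

/-- The orbit of `x` has a term of absolute value smaller than `Y`, and no term before the first such term is in `A`. -/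
def Avoids (d : ℤ) (A : Set ℤ) (Y : ℝ) (x : ℤ) : Prop :=
  ∃ k : ℕ, |(((T d)^[k] x : ℤ) : ℝ)| < Y ∧ ∀ j < k, Y ≤ |(((T d)^[j] x : ℤ) : ℝ)| ∧ (T d)^[j] x ∉ A

/-- A term `y = T^i x` is congruent to `α m` modulo `2 ^ m`, `m ≥ (1 - ε) log₂ log |y|`, and all the terms up to it have
an absolute value of at least `√|x|`. -/
def Hits (d : ℤ) (ε : ℝ) (α : ℕ → ℤ) (x : ℤ) : Prop :=
  ∃ i m : ℕ, (1 - ε) * (Real.log (Real.log |(((T d)^[i] x : ℤ) : ℝ)|) / Real.log 2) ≤ m ∧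
    (2 : ℤ) ^ m ∣ (T d)^[i] x - α m ∧ ∀ j ≤ i, Real.sqrt |(x : ℝ)| ≤ |(((T d)^[j] x : ℤ) : ℝ)|

/-- The number of the integers `|x| ≤ N` with the property `P`. -/
noncomputable def count (P : ℤ → Prop) (N : ℕ) : ℝ := (Set.ncard {x : ℤ | |x| ≤ N ∧ P x} : ℝ)

/-- Almost all the integers have the property `P`: the others have density zero. -/
def AlmostAll (P : ℤ → Prop) : Prop := Tendsto (fun N : ℕ => count (fun x => ¬ P x) N / N) atTop (𝓝 0)

theorem avoids_iff (d : ℤ) (A : Set ℤ) (Y : ℝ) (x : ℤ) : Run7.h702.BC.AvZ d A Y x ↔ Avoids d A Y x := Iff.rfl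

theorem hits_iff (d : ℤ) (ε : ℝ) (α : ℕ → ℤ) (x : ℤ) : Run7.h702.BC.HitZ d ε α x ↔ Hits d ε α x := Iff.rfl

theorem result (d : ℤ) (hd : Odd d) (hd3 : ¬ (3 : ℤ) ∣ d) :
    (∀ (s : ℝ) (A : Set ℤ), 1 < s → Small s A → ∃ η K : ℝ, 0 < η ∧ 0 < K ∧ ∀ Y : ℝ, 2 ≤ Y → ∀ N : ℕ,
      count (fun x => ¬ Avoids d A Y x) N ≤ K * N / (Real.log Y) ^ η) ∧
    (∀ (s : ℝ) (A : Set ℤ), 1 < s → Small s A → ∀ F : ℕ → ℝ, Tendsto F atTop atTop →
      AlmostAll (fun x => Avoids d A (F x.natAbs) x)) ∧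
    (∀ (ε : ℝ) (α : ℕ → ℤ), 0 < ε → ε < 1 → ∃ δ K : ℝ, 0 < δ ∧ 0 < K ∧ ∀ N : ℕ, 1 ≤ N →
      count (fun x => ¬ (x = 0 ∨ Hits d ε α x)) N ≤ K * N * Real.exp (-(Real.log N) ^ δ)) ∧
    (∀ (q : ℕ) (α : ℕ → ℤ) (ε : ℝ), 2 ≤ q → Nat.Coprime q 3 → (∀ m : ℕ, (q : ℤ) ^ m ∣ α (m + 1) - α m) → 0 < ε →
      ∀ F : ℕ → ℝ, Tendsto F atTop atTop → AlmostAll (fun x => ∃ k : ℕ, |(((T d)^[k] x : ℤ) : ℝ)| < F x.natAbs ∧
        ∀ j < k, ∀ m : ℕ, (q : ℤ) ^ m ∣ (T d)^[j] x - α m →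
          (m : ℝ) ≤ (1 + ε) * (Real.log (Real.log |(((T d)^[j] x : ℤ) : ℝ)|) / Real.log q))) := by
  have hc := Pool.Agent.R105.CZ.cop_of hd3
  have p1 : ∀ (s : ℝ) (A : Set ℤ), 1 < s → Small s A → ∃ η K : ℝ, 0 < η ∧ 0 < K ∧ ∀ Y : ℝ, 2 ≤ Y → ∀ N : ℕ,
      count (fun x => ¬ Avoids d A Y x) N ≤ K * N / (Real.log Y) ^ η :=
    fun s A hs hA => Run7.h702.BC.bc_both hd hc hs hA
  have p2 : ∀ (s : ℝ) (A : Set ℤ), 1 < s → Small s A → ∀ F : ℕ → ℝ, Tendsto F atTop atTop →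
      AlmostAll (fun x => Avoids d A (F x.natAbs) x) := by
    intro s A hs hA F hF
    obtain ⟨η, K, hη, _, h⟩ := p1 s A hs hA
    exact Run7.h702.BC.densityZ (D := fun Y x => Avoids d A Y x)
      (fun Y Y' n hY h => Run7.h702.BC.AvZ.mono hY h) hη h F hF
  refine ⟨p1, p2, ?_, ?_⟩
  · intro ε α h0 h1
    obtain ⟨K, hK, h⟩ := Run7.h702.BC.hit_both (Int.odd_iff.1 hd) h0 h1 α
    exact ⟨ε / 8, K, by linarith, hK, h⟩
  · intro q α ε hq hq3 hα hε F hF
    have h := p2 (1 + ε) _ (by linarith) (Run7.h702.BC.small_target hq hq3 hα hε) F hF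
    unfold AlmostAll at h ⊢
    refine squeeze_zero (fun N => by unfold count; positivity) (fun N => ?_) h
    apply div_le_div_of_nonneg_right _ (Nat.cast_nonneg N)
    unfold count
    have hfin : {x : ℤ | |x| ≤ N ∧ ¬ Avoids d {x : ℤ | ∃ m : ℕ,
        (1 + ε) * (Real.log (Real.log |(x : ℝ)|) / Real.log q) < m ∧ (q : ℤ) ^ m ∣ x - α m} (F x.natAbs) x}.Finite := by
      apply (Set.finite_Icc (-(N : ℤ)) N).subset
      rintro x ⟨hx, _⟩
      rw [abs_le] at hx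
      exact hx
    have hsub : {x : ℤ | |x| ≤ N ∧ ¬ ∃ k : ℕ, |(((T d)^[k] x : ℤ) : ℝ)| < F x.natAbs ∧
        ∀ j < k, ∀ m : ℕ, (q : ℤ) ^ m ∣ (T d)^[j] x - α m →
          (m : ℝ) ≤ (1 + ε) * (Real.log (Real.log |(((T d)^[j] x : ℤ) : ℝ)|) / Real.log q)} ⊆
        {x : ℤ | |x| ≤ N ∧ ¬ Avoids d {x : ℤ | ∃ m : ℕ,
          (1 + ε) * (Real.log (Real.log |(x : ℝ)|) / Real.log q) < m ∧ (q : ℤ) ^ m ∣ x - α m} (F x.natAbs) x} := by
      rintro x ⟨h1, h2⟩
      refine ⟨h1, fun h3 => h2 ?_⟩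
      obtain ⟨k, h4, h5⟩ := h3
      refine ⟨k, h4, fun j hj m hm => ?_⟩
      by_contra hcon
      exact (h5 j hj).2 ⟨m, not_le.1 hcon, hm⟩
    exact_mod_cast Set.ncard_le_ncard hsub hfin

end Pool.Agent.Results.MP_d0d59f_nt.BorelCantelliLemma
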