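import Pool.Agent.Run7.h439.DC.H3
import Pool.Agent.H499R2.LT.Q1

set_option autoImplicit false

/-!
# The orbits of the `3x+d` maps in the classes defined by digits in odd bases

Let `d` be odd and prime to `3`. We consider the integers of a given sign whose absolute values lie in a
class given by the residues of strongly additive digit functions (for example sums of digits) in pairwise
coprime odd bases. The first entrances of their orbits into a finite set have the same laws as for all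
integers, with a power saving which is uniform in the set, and `Q1` for `d` follows if the orbits of almost
all members of one class, for both signs, meet some finite set.
-/

namespace Pool.Agent.Results.MP_d0d59f_nt.DigitClassesHitting

open Filter Topology

/-- the `3x+d` map on the integers -/
def T (d x : ℤ) : ℤ := if x % 2 = 0 then x / 2 else (3 * x + d) / 2

/-- The orbit of `x` meets `F` for the first time after exactly `k` steps. -/
def FirstHit (d : ℤ) (F : Finset ℤ) (k : ℕ) (x : ℤ) : Prop :=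
  (T d)^[k] x ∈ F ∧ ∀ i < k, (T d)^[i] x ∉ F

/-- the number of odd terms among `x, T x, ..., T^(k-1) x` -/
def odds (d : ℤ) (k : ℕ) (x : ℤ) : ℕ := ((Finset.range k).filter fun i => (T d)^[i] x % 2 = 1).card

/-- The values of `f` are in `[-1, 1]`, and `f x` depends only on the first common element of the orbit of
`x` and `F`, on the time it is reached, and on the number of the odd terms before; `f` is constant on the
set of the integers whose orbits miss `F`. -/
structure OfFirstHit (d : ℤ) (F : Finset ℤ) (f : ℤ → ℝ) : Prop where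
  bounded : ∀ x, |f x| ≤ 1
  hit : ∀ (k : ℕ) (x y : ℤ), FirstHit d F k x → FirstHit d F k y → (T d)^[k] x = (T d)^[k] y →
    odds d k x = odds d k y → f x = f y
  miss : ∀ x y : ℤ, (∀ k, (T d)^[k] x ∉ F) → (∀ k, (T d)^[k] y ∉ F) → f x = f y

/-- `W` is strongly `q`-additive: `W(n)` is the sum of the values of `W` at the digits of `n` in base `q`. -/
def StronglyAdditive (q : ℕ) (W : ℕ → ℤ) : Prop := ∀ n r : ℕ, r < q → W (q * n + r) = W n + W r

/-- There is no prime `p ∣ m` such that `W(r) ≡ r W(1)` modulo `p` for all `r ≤ q`. For the sum of the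
digits in base `q` this says that `m` is coprime to `q - 1`. -/
def Unobstructed (q : ℕ) (W : ℕ → ℤ) (m : ℕ) : Prop :=
  ∀ p : ℕ, p.Prime → p ∣ m → ∃ r : ℕ, r ≤ q ∧ ¬ W r ≡ r * W 1 [ZMOD p]

/-- The data: pairwise coprime odd bases `q i ≥ 3`, strongly `q i`-additive functions `W i` with integer
values, and moduli `m i ≥ 1` without obstruction. -/
structure Data {l : ℕ} (q m : Fin l → ℕ) (W : Fin l → ℕ → ℤ) : Prop where
  odd : ∀ i, 3 ≤ q i ∧ q i % 2 = 1
  coprime : ∀ i j, i ≠ j → Nat.Coprime (q i) (q j)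
  additive : ∀ i, StronglyAdditive (q i) (W i)
  pos : ∀ i, 1 ≤ m i
  free : ∀ i, Unobstructed (q i) (W i) (m i)

/-- the class: `W i (n) ≡ a i` modulo `m i` for all `i` -/
def InClass {l : ℕ} (m : Fin l → ℕ) (W : Fin l → ℕ → ℤ) (a : Fin l → ℤ) (n : ℕ) : Prop :=
  ∀ i, W i n ≡ a i [ZMOD m i]

/-- The set of the positive integers with the property `P` has natural density `l`. -/
def HasDensity (P : ℕ → Prop) (l : ℝ) : Prop :=
  Tendsto (fun N : ℕ => (Set.ncard {n : ℕ | 1 ≤ n ∧ n ≤ N ∧ P n} : ℝ) / N) atTop (𝓝 l)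

/-- `2 / log (4/3) * log n + x * log 3 * √(2 log n / (log (4/3))^3)` -/
noncomputable def bound (x : ℝ) (n : ℕ) : ℝ :=
  2 / Real.log (4 / 3) * Real.log n
    + x * (Real.log 3 * Real.sqrt (2 * Real.log n / Real.log (4 / 3) ^ 3))

/-- The distribution function of the standard normal law. -/
noncomputable def Phi (x : ℝ) : ℝ :=
  ProbabilityTheory.cdf (ProbabilityTheory.gaussianReal 0 1) x

open Pool.Agent.Run7.h439.DC Pool.Agent.Y965.PS
open Pool.Agent.Y965.PL (MnS ind ind_pos ind_neg ind_congr th)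

theorem odds_eq (d : ℤ) (k : ℕ) (x : ℤ) : ac d k x = odds d k x := by
  induction k with
  | zero => rfl
  | succ k ih =>
    rw [ac_succ, ih]
    unfold odds
    rw [Finset.range_add_one, Finset.filter_insert]
    have h1 : (Tz d)^[k] x = (T d)^[k] x := rfl
    rw [h1]
    rcases Int.emod_two_eq_zero_or_one ((T d)^[k] x) with h | h
    · rw [if_pos h, if_neg (by omega), add_zero]
    · rw [if_neg (by omega), if_pos h, Finset.card_insert_of_notMem (by simp)]

theorem fe_iff {d : ℤ} {F : Finset ℤ} {k : ℕ} {x : ℤ} : FE (Tz d) (fun x => x ∈ F) k x ↔ FirstHit d F k x := Iff.rfl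

theorem ofH {d : ℤ} {F : Finset ℤ} {f : ℤ → ℝ} (h : OfFirstHit d F f) : OfH d (fun x => x ∈ F) f := by
  refine ⟨h.bounded, fun k x y h1 h2 h3 h4 => h.hit k x y h1 h2 h3 ?_, fun x y h1 h2 => h.miss x y ?_ ?_⟩
  · rw [← odds_eq, ← odds_eq]; exact h4
  · intro k hk
    obtain ⟨j, hj⟩ := FE_iff.1 (⟨k, hk⟩ : ∃ k, (fun x => x ∈ F) ((Tz d)^[k] x))
    exact h1 j hj
  · intro k hk
    obtain ⟨j, hj⟩ := FE_iff.1 (⟨k, hk⟩ : ∃ k, (fun x => x ∈ F) ((Tz d)^[k] y))
    exact h2 j hj

theorem count_ind (P : ℕ → Prop) (X : ℕ) :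
    ({n : ℕ | 1 ≤ n ∧ n ≤ X ∧ P n}.ncard : ℝ) = ∑ n ∈ Finset.Icc 1 X, ind P n := by
  classical
  unfold ind
  rw [Finset.sum_boole]
  have e : {n : ℕ | 1 ≤ n ∧ n ≤ X ∧ P n} = ((Finset.Icc 1 X).filter fun n => P n : Finset ℕ) := by
    ext n
    simp only [Set.mem_ofPred_eq, Finset.coe_filter, Finset.mem_Icc, and_assoc]
  rw [e, Set.ncard_coe_finset]

theorem along_of {P Q : ℕ → Prop} {d : ℝ} (h : MnS id (ind Q) d) (hPQ : ∀ n, 1 ≤ n → (P n ↔ Q n)) : HasDensity P d := by
  unfold HasDensity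
  unfold MnS at h
  refine h.congr fun X => ?_
  rw [count_ind P X]
  congr 1
  apply Finset.sum_congr rfl
  intro n hn
  exact ind_congr (hPQ _ (Finset.mem_Icc.1 hn).1).symm

theorem dens_unique {P : ℕ → Prop} {a b : ℝ} (h : HasDensity P a) (h' : HasDensity P b) : a = b := tendsto_nhds_unique h h'

/-- FIRST HITS IN DIGIT CLASSES. Let `d` be odd and prime to `3`.

(1) (Uniform transfer.) For all data `q, m, W` and all `R` there are `K` and `c > 0` such that for both
signs `s`, all sets `F ⊆ [-R, R]`, all classes `a` and all functions `f` of the first hit of `F`, the sum of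
`f (s n)` over the `n ≤ X` in the class is `∏ 1 / m i` times the sum over all `n ≤ X`, up to `K X ^ (1 - c)`.

(2) Let `s` be a sign and `F` a finite set. The `n` for which the orbit of `s n` meets `F` have a natural
density `δ`, positive if `F` contains an integer of the sign of `s` prime to `3`, and for all data, all
classes, all `x` and all residues the `n` in the class for which the orbit of `s n` meets `F` for the
first time after at most `bound x n` steps, the number of steps being `≡ u` and the number of odd terms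
before being `≡ v` modulo `r`, have natural density `(∏ 1 / m i) * (δ * Phi x / r ^ 2)`; those for which it
meets `F` at all have natural density `(∏ 1 / m i) * δ`.

(3) There is a finite set met by the orbits of all integers (which is what Q1 asserts for `d`) if and only
if there are data and a class such that for some finite set `F`, for both signs `s`, the orbits of `s n`
meet `F` for almost all `n` in the class (the set of these `n` has the density `∏ 1 / m i` of the class). -/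
theorem result (d : ℤ) (hd : d % 2 = 1) (hd3 : ¬ (3 : ℤ) ∣ d) :
    (∀ (R l : ℕ) (q m : Fin l → ℕ) (W : Fin l → ℕ → ℤ), Data q m W → ∃ K c : ℝ, 0 < c ∧
      ∀ s : ℤ, s = 1 ∨ s = -1 → ∀ F : Finset ℤ, (∀ x ∈ F, |x| ≤ (R : ℤ)) → ∀ f : ℤ → ℝ, OfFirstHit d F f →
      ∀ (a : Fin l → ℤ) (X : ℕ), 1 ≤ X →
        |∑ᶠ n ∈ {n : ℕ | 1 ≤ n ∧ n ≤ X ∧ InClass m W a n}, f (s * n) -
          (∏ i, 1 / (m i : ℝ)) * ∑ n ∈ Finset.Icc 1 X, f (s * n)| ≤ K * (X : ℝ) ^ (1 - c)) ∧
    (∀ s : ℤ, s = 1 ∨ s = -1 → ∀ F : Finset ℤ, ∃ δ : ℝ,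
      ((∃ a ∈ F, 0 < s * a ∧ ¬ (3 : ℤ) ∣ a) → 0 < δ) ∧
      HasDensity (fun n => ∃ k : ℕ, (T d)^[k] (s * n) ∈ F) δ ∧
      ∀ (l : ℕ) (q m : Fin l → ℕ) (W : Fin l → ℕ → ℤ), Data q m W → ∀ a : Fin l → ℤ,
        HasDensity (fun n => InClass m W a n ∧ ∃ k : ℕ, (T d)^[k] (s * n) ∈ F) ((∏ i, 1 / (m i : ℝ)) * δ) ∧
        ∀ (x : ℝ) (r : ℕ) (u v : ℤ), 1 ≤ r →
          HasDensity (fun n => InClass m W a n ∧ ∃ k : ℕ, (k : ℝ) ≤ bound x n ∧ FirstHit d F k (s * n) ∧
            (k : ℤ) ≡ u [ZMOD r] ∧ (odds d k (s * n) : ℤ) ≡ v [ZMOD r])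
            ((∏ i, 1 / (m i : ℝ)) * (δ * Phi x / r ^ 2))) ∧
    ((∃ F : Finset ℤ, ∀ x : ℤ, ∃ k : ℕ, (T d)^[k] x ∈ F) ↔
      ∃ (l : ℕ) (q m : Fin l → ℕ) (W : Fin l → ℕ → ℤ) (a : Fin l → ℤ) (F : Finset ℤ), Data q m W ∧
        ∀ s : ℤ, s = 1 ∨ s = -1 →
          HasDensity (fun n => InClass m W a n ∧ ∃ k : ℕ, (T d)^[k] (s * n) ∈ F) (∏ i, 1 / (m i : ℝ))) := by
  classical
  have hodd : Odd d := Int.odd_iff.2 hd
  have hDD : ∀ {l : ℕ} {q m : Fin l → ℕ} {W : Fin l → ℕ → ℤ}, Data q m W → DD 2 q m W := by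
    intro l q m W hD
    refine ⟨fun i => (hD.odd i).1, fun i => ?_, hD.coprime, hD.additive, hD.pos, hD.free⟩
    rw [Nat.coprime_two_left]
    exact Nat.odd_iff.2 (hD.odd i).2
  have hcl : ∀ {l : ℕ} {m : Fin l → ℕ} {W : Fin l → ℕ → ℤ} {a : Fin l → ℤ} (n : ℕ), InClass m W a n ↔ Ed m W a n :=
    fun n => Ed_iff
  have hmain : ∀ s : ℤ, s = 1 ∨ s = -1 → ∀ F : Finset ℤ, ∃ δ : ℝ,
      ((∃ a ∈ F, 0 < s * a ∧ ¬ (3 : ℤ) ∣ a) → 0 < δ) ∧
      HasDensity (fun n => ∃ k : ℕ, (T d)^[k] (s * n) ∈ F) δ ∧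
      ∀ (l : ℕ) (q m : Fin l → ℕ) (W : Fin l → ℕ → ℤ), Data q m W → ∀ a : Fin l → ℤ,
        HasDensity (fun n => InClass m W a n ∧ ∃ k : ℕ, (T d)^[k] (s * n) ∈ F) ((∏ i, 1 / (m i : ℝ)) * δ) ∧
        ∀ (x : ℝ) (r : ℕ) (u v : ℤ), 1 ≤ r →
          HasDensity (fun n => InClass m W a n ∧ ∃ k : ℕ, (k : ℝ) ≤ bound x n ∧ FirstHit d F k (s * n) ∧
            (k : ℤ) ≡ u [ZMOD r] ∧ (odds d k (s * n) : ℤ) ≡ v [ZMOD r])
            ((∏ i, 1 / (m i : ℝ)) * (δ * Phi x / r ^ 2)) := by
    intro s hs F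
    obtain ⟨δ, _, hpos, hδ, hlaw⟩ := Pool.Agent.H499R2.LT.joint_side hodd hd3 hs F
    refine ⟨δ, hpos, hδ, fun l q m W hD a => ?_⟩
    obtain ⟨R, hR⟩ : ∃ R : ℕ, ∀ x ∈ F, |x| ≤ (R : ℤ) := by
      refine ⟨(F.sup fun x => x.natAbs), fun x hx => ?_⟩
      have h1 : x.natAbs ≤ F.sup fun x => x.natAbs := Finset.le_sup (f := fun x : ℤ => x.natAbs) hx
      rw [Int.abs_eq_natAbs]
      exact_mod_cast h1
    obtain ⟨C, c, hC, hc0, _, hT⟩ := ofH_ct hodd R (hDD hD)
    obtain ⟨hρ0, hρ1⟩ := rho01 hD.pos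
    set ρ : ℝ := ∏ i, 1 / (m i : ℝ) with hρ
    have hT' : ∀ f : ℤ → ℝ, OfH d (fun x => x ∈ F) f → CT (Ed m W a) ρ C c (fun n => f (s * n)) :=
      fun f hf => hT s hs _ (fun x hx => hR x hx) f hf a
    constructor
    · have h1 : OfH d (fun x => x ∈ F) (fun y => if ∃ k : ℕ, (T d)^[k] y ∈ F then 1 else 0) := by
        refine ⟨fun y => ?_, fun k y z hy hz _ _ => ?_, fun y z hy hz => ?_⟩
        · split_ifs <;> simp
        · rw [if_pos ⟨k, hy.1⟩, if_pos ⟨k, hz.1⟩]
        · rw [if_neg, if_neg]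
          · rintro hk
            obtain ⟨j, hj⟩ := (FE_iff (T := Tz d) (A := fun x => x ∈ F)).1 hk
            exact hz j hj
          · rintro hk
            obtain ⟨j, hj⟩ := (FE_iff (T := Tz d) (A := fun x => x ∈ F)).1 hk
            exact hy j hj
      have h2 : CT (Ed m W a) ρ C c (ind (fun n : ℕ => ∃ k : ℕ, (T d)^[k] (s * n) ∈ F)) :=
        (hT' _ h1).congr fun n => by unfold ind; rfl
      have h3 := cls_set hρ0.le hρ1 hc0 h2 (Pool.Agent.Y965.PL.Mn_of_Dn hδ)
      exact along_of h3 fun n _ => and_congr (hcl n) Iff.rfl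
    · intro x r u v hr
      have h1 := hit_law hodd hd3 hs F hlaw hρ0.le hρ1 hc0 hT' x u v hr
      have e : δ / (r : ℝ) ^ 2 * Pool.Agent.H499R2.ND.Phi x = δ * Phi x / r ^ 2 := by
        unfold Phi
        rw [← Pool.Agent.H499R2.ND.phi_cdf]
        ring
      rw [e] at h1
      refine along_of h1 fun n hn => and_congr (hcl n) ?_
      unfold LH
      refine exists_congr fun k => ?_
      rw [th_H x n hn, Pool.Agent.H499R2.LT.tb2 x n hn, odds_eq]
      rfl
  refine ⟨fun R l q m W hD => ?_, hmain, ?_, ?_⟩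
  · obtain ⟨C, c, hC, hc0, _, hT⟩ := ofH_ct hodd R (hDD hD)
    refine ⟨C, c, hc0, fun s hs F hF f hf a X hX => ?_⟩
    have h1 := (hT s hs _ (fun x hx => hF x hx) f (ofH hf) a).tr X hX
    have hset : ∑ᶠ n ∈ {n : ℕ | 1 ≤ n ∧ n ≤ X ∧ InClass m W a n}, f (s * n) =
        ∑ n ∈ Finset.Icc 1 X, ind (Ed m W a) n * f (s * n) := by
      rw [finsum_mem_eq_finite_toFinset_sum _ ((Set.finite_Iic X).subset fun n hn => hn.2.1)]
      have e : ((Set.finite_Iic X).subset fun n (hn : n ∈ {n : ℕ | 1 ≤ n ∧ n ≤ X ∧ InClass m W a n}) => hn.2.1).toFinset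
          = (Finset.Icc 1 X).filter (fun n => Ed m W a n) := by
        ext n
        simp only [Set.Finite.mem_toFinset, Set.mem_ofPred_eq, Finset.mem_filter, Finset.mem_Icc, hcl, and_assoc]
      rw [e, Finset.sum_filter]
      apply Finset.sum_congr rfl
      intro n _
      by_cases h : Ed m W a n
      · rw [if_pos h, ind_pos h, one_mul]
      · rw [if_neg h, ind_neg h, zero_mul]
    rw [hset]
    exact h1
  · rintro ⟨F, hF⟩
    refine ⟨0, fun i => i.elim0, fun i => i.elim0, fun i => i.elim0, fun i => i.elim0, F,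
      ⟨fun i => i.elim0, fun i => i.elim0, fun i => i.elim0, fun i => i.elim0, fun i => i.elim0⟩, fun s hs => ?_⟩
    have h1 : MnS id (ind fun _ => True) 1 := by
      have h2 := Pool.Agent.Y965.PL.MnS_const id 1
      exact h2.congr fun X => by
        congr 1
        apply Finset.sum_congr rfl
        intro n _
        rw [ind_pos trivial]
    have h2 := along_of (P := fun n => InClass (fun i : Fin 0 => i.elim0) (fun i => i.elim0) (fun i => i.elim0) n ∧
      ∃ k : ℕ, (T d)^[k] (s * n) ∈ F) h1 fun n _ => ⟨fun _ => trivial, fun _ => ⟨fun i => i.elim0, hF _⟩⟩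
    simpa using h2
  · rintro ⟨l, q, m, W, a, F, hD, h⟩
    have key : ∀ s : ℤ, s = 1 ∨ s = -1 → HasDensity (fun n => ∃ k : ℕ, (T d)^[k] (s * n) ∈ F) 1 := by
      intro s hs
      obtain ⟨δ, _, hδ, h1⟩ := hmain s hs F
      have h2 := dens_unique (h1 l q m W hD a).1 (h s hs)
      obtain ⟨hρ0, _⟩ := rho01 hD.pos
      have h3 : δ = 1 := by
        have h4 : (∏ i, 1 / (m i : ℝ)) * (δ - 1) = 0 := by linarith
        rcases mul_eq_zero.1 h4 with h5 | h5
        · exact absurd h5 hρ0.ne'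
        · linarith
      rw [← h3]; exact hδ
    refine Pool.Agent.H499R2.LT.zero_one hodd hd3 F ?_ ?_
    · have h1 := key 1 (Or.inl rfl)
      simp only [one_mul] at h1
      exact h1
    · have h1 := key (-1) (Or.inr rfl)
      simp only [neg_one_mul] at h1
      exact h1

end Pool.Agent.Results.MP_d0d59f_nt.DigitClassesHitting
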