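import Pool.Agent.Run7.h439.DC.H3
import Pool.Agent.H499R2.LT.Q1
import Pool.Agent.Run7.h792.FL.Inv
import Pool.Agent.Run7.h792.FL.LawG

set_option autoImplicit false

/-!
# The orbits of the `3x+d` maps and functions modulo large odd numbers

Let `d` be odd and prime to `3`, and fix `0 < ε < 1`. At the scale `N`, the first entrances of the orbits of the
integers `n ≤ N` (or `-n`) into a finite set are independent, with a power saving, of every function of `n`
modulo an odd `q` between `N ^ ε` and `N ^ (1 - ε)` whose Fourier coefficients at the nonzero frequencies are at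
most `q ^ (1 / 2 + η)`. So they have the same laws in every set of residues of this kind, for example in the
quadratic residues modulo a prime between `N ^ ε` and `N ^ (1 - ε)`, and Q1 for `d` is decided by such sets at
infinitely many scales.

Method: the dispersion argument of `Pool.Agent.Run7.h439.DC.Orth` at a level which is a small proportion of
`log q`; the correlations of the function along the progressions modulo the powers of two are, up to `O(q)`,
autocorrelations over whole periods, and the sum of the squares of the latter is bounded by Parseval.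
-/

namespace Pool.Agent.Results.MP_d0d59f_nt.FlatResidues

open Filter Topology

/-- the `3x+d` map on the integers -/
def T (d x : ℤ) : ℤ := if x % 2 = 0 then x / 2 else (3 * x + d) / 2

/-- The orbit of `x` meets `F` for the first time after exactly `k` steps. -/
def FirstHit (d : ℤ) (F : Finset ℤ) (k : ℕ) (x : ℤ) : Prop :=
  (T d)^[k] x ∈ F ∧ ∀ i < k, (T d)^[i] x ∉ F

/-- the number of odd terms among `x, T x, ..., T^(k-1) x` -/
def odds (d : ℤ) (k : ℕ) (x : ℤ) : ℕ := ((Finset.range k).filter fun i => (T d)^[i] x % 2 = 1).card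

/-- The values of `f` are in `[-1, 1]`, and `f x` depends only on the first common element of the orbit of
`x` and `F`, on the time it is reached, and on the number of the odd terms before; `f` is constant on the
set of the integers whose orbits miss `F`. -/
structure OfFirstHit (d : ℤ) (F : Finset ℤ) (f : ℤ → ℝ) : Prop where
  bounded : ∀ x, |f x| ≤ 1
  hit : ∀ (k : ℕ) (x y : ℤ), FirstHit d F k x → FirstHit d F k y → (T d)^[k] x = (T d)^[k] y →
    odds d k x = odds d k y → f x = f y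
  miss : ∀ x y : ℤ, (∀ k, (T d)^[k] x ∉ F) → (∀ k, (T d)^[k] y ∉ F) → f x = f y

/-- `f` has period `q`, values of modulus at most `1`, and its Fourier coefficients at the nonzero
frequencies have modulus at most `q ^ (1 / 2 + η)`. -/
structure Flat (q : ℕ) (η : ℝ) (f : ℕ → ℂ) : Prop where
  bounded : ∀ n, ‖f n‖ ≤ 1
  periodic : ∀ n, f (n + q) = f n
  fourier : ∀ h : ℕ, 0 < h → h < q →
    ‖∑ a ∈ Finset.range q, f a * Complex.exp (2 * Real.pi * Complex.I * (h * a) / q)‖ ≤ (q : ℝ) ^ (1 / 2 + η)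

/-- the mean value of a function with period `q` -/
noncomputable def mean (q : ℕ) (f : ℕ → ℂ) : ℂ := (∑ a ∈ Finset.range q, f a) / q

/-- `A` is a subset of `{0, ..., q - 1}`, and the indicator function of the integers which are congruent to
an element of `A` modulo `q` is `Flat`. -/
def FlatSet (q : ℕ) (η : ℝ) (A : Finset ℕ) : Prop :=
  A ⊆ Finset.range q ∧ Flat q η (fun n => if n % q ∈ A then 1 else 0)

/-- `q` is odd and `N ^ ε ≤ q ≤ N ^ (1 - ε)`. -/
def InRange (ε : ℝ) (N q : ℕ) : Prop := Odd q ∧ (N : ℝ) ^ ε ≤ q ∧ (q : ℝ) ≤ (N : ℝ) ^ (1 - ε)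

/-- the number of the `1 ≤ n ≤ X` with the property `P` -/
noncomputable def count (P : ℕ → Prop) (X : ℕ) : ℝ := (Set.ncard {n : ℕ | 1 ≤ n ∧ n ≤ X ∧ P n} : ℝ)

/-- The set of the positive integers with the property `P` has natural density `l`. -/
def HasDensity (P : ℕ → Prop) (l : ℝ) : Prop := Tendsto (fun N : ℕ => count P N / N) atTop (𝓝 l)

/-- `2 / log (4/3) * log n + x * log 3 * √(2 log n / (log (4/3))^3)` -/
noncomputable def bound (x : ℝ) (n : ℕ) : ℝ :=
  2 / Real.log (4 / 3) * Real.log n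
    + x * (Real.log 3 * Real.sqrt (2 * Real.log n / Real.log (4 / 3) ^ 3))

/-- The distribution function of the standard normal law. -/
noncomputable def Phi (x : ℝ) : ℝ :=
  ProbabilityTheory.cdf (ProbabilityTheory.gaussianReal 0 1) x

open Pool.Agent.Run7.h792.FL
open Pool.Agent.Run7.h439.DC Pool.Agent.Y965.PS
open Pool.Agent.Y965.PL (Mn MnS ind ind_pos ind_neg ind_congr th)

theorem odds_eq (d : ℤ) (k : ℕ) (x : ℤ) : ac d k x = odds d k x := by
  induction k with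
  | zero => rfl
  | succ k ih =>
    rw [ac_succ, ih]
    unfold odds
    rw [Finset.range_add_one, Finset.filter_insert]
    have h1 : (Tz d)^[k] x = (T d)^[k] x := rfl
    rw [h1]
    rcases Int.emod_two_eq_zero_or_one ((T d)^[k] x) with h | h
    · rw [if_pos h, if_neg (by omega), add_zero]
    · rw [if_neg (by omega), if_pos h, Finset.card_insert_of_notMem (by simp)]

theorem fe_iff {d : ℤ} {F : Finset ℤ} {k : ℕ} {x : ℤ} : FE (Tz d) (fun x => x ∈ F) k x ↔ FirstHit d F k x := Iff.rfl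

theorem ofH {d : ℤ} {F : Finset ℤ} {f : ℤ → ℝ} (h : OfFirstHit d F f) : OfH d (fun x => x ∈ F) f := by
  refine ⟨h.bounded, fun k x y h1 h2 h3 h4 => h.hit k x y h1 h2 h3 ?_, fun x y h1 h2 => h.miss x y ?_ ?_⟩
  · rw [← odds_eq, ← odds_eq]; exact h4
  · intro k hk
    obtain ⟨j, hj⟩ := FE_iff.1 (⟨k, hk⟩ : ∃ k, (fun x => x ∈ F) ((Tz d)^[k] x))
    exact h1 j hj
  · intro k hk
    obtain ⟨j, hj⟩ := FE_iff.1 (⟨k, hk⟩ : ∃ k, (fun x => x ∈ F) ((Tz d)^[k] y))
    exact h2 j hj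

theorem count_ind (P : ℕ → Prop) (X : ℕ) : count P X = ∑ n ∈ Finset.Icc 1 X, ind P n := by
  classical
  unfold ind count
  rw [Finset.sum_boole]
  have e : {n : ℕ | 1 ≤ n ∧ n ≤ X ∧ P n} = ((Finset.Icc 1 X).filter fun n => P n : Finset ℕ) := by
    ext n
    simp only [Set.mem_ofPred_eq, Finset.coe_filter, Finset.mem_Icc, and_assoc]
  rw [e, Set.ncard_coe_finset]

/-- FIRST HITS AND FUNCTIONS MODULO LARGE ODD NUMBERS. Let `d` be odd and prime to `3`, `0 < ε < 1` and `R ≥ 0`.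
There are `η`, `c`, `K > 0` with the following properties; `N ≥ 1`, and `q` is odd with
`N ^ ε ≤ q ≤ N ^ (1 - ε)`.

(1) (Uniform transfer.) For every `g` with period `q` and modulus at most `1` whose Fourier coefficients at
the nonzero frequencies are at most `q ^ (1 / 2 + η)`, both signs `s`, all sets `F ⊆ [-R, R]`, all functions `f` of
the first hit of `F` and all `X ≤ N` the sum over the `n ≤ X` of `f (s n)` times `g(n)` minus the mean value of
`g` has modulus at most `K N ^ (1 - c)`.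

(2) Let `s` be a sign and `F ⊆ [-R, R]`. The `n` for which the orbit of `s n` meets `F` have a natural density
`δ`, positive if `F` contains an integer of the sign of `s` prime to `3`, and for `0 ≤ v < c`, `τ > 0`, all large
`N`, all `q` and all flat sets `A` of residues modulo `q` with `|A| ≥ q N ^ (-v)`, up to `τ |A| / q * N`: the number
of the `n ≤ N` in the classes of `A` for which the orbit of `s n` meets `F` is `δ |A| / q * N`, and the number of
those for which it does so for the first time after at most `bound x n` steps, the number of steps being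
`≡ a` and the number of odd terms before being `≡ b` modulo `r`, is `δ Phi x / r ^ 2 * |A| / q * N`.

(3) Let `0 ≤ v < c`. If there is a set `F ⊆ [-R, R]` such that for both signs `s` there are for infinitely many
`N` a number `q` and a flat `A` with `|A| ≥ q N ^ (-v)` such that the orbit of `s n` meets `F` for all but at most
`o(|A| / q * N)` of the `n ≤ N` in the classes of `A`, then there is a finite set which is met by the orbits of
all integers (this is what Q1 asserts for `d`).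

(4) (Examples.) The hypothesis on `f` holds for the primitive Dirichlet characters modulo `q`, for
`exp (2 π i (a n ^ 2 + b n) / q)` with `a` coprime to `q`, and the hypothesis on `A` holds if `q = p` is prime and `A`
is invariant under multiplication by the `k`-th powers coprime to `p`, where `k + 1 ≤ p ^ (2 η)`. -/
theorem result (d : ℤ) (hd : d % 2 = 1) (hd3 : ¬ (3 : ℤ) ∣ d) : ∀ ε : ℝ, 0 < ε → ε < 1 → ∀ R : ℕ,
    ∃ η c K : ℝ, 0 < η ∧ 0 < c ∧ c < 1 ∧ 0 < K ∧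
    (∀ N q : ℕ, 1 ≤ N → InRange ε N q → ∀ g : ℕ → ℂ, Flat q η g → ∀ s : ℤ, s = 1 ∨ s = -1 →
      ∀ F : Finset ℤ, (∀ x ∈ F, |x| ≤ (R : ℤ)) → ∀ f : ℤ → ℝ, OfFirstHit d F f → ∀ X : ℕ, X ≤ N →
      ‖∑ n ∈ Finset.Icc 1 X, (f (s * n) : ℂ) * (g n - mean q g)‖ ≤ K * (N : ℝ) ^ (1 - c)) ∧
    (∀ s : ℤ, s = 1 ∨ s = -1 → ∀ F : Finset ℤ, (∀ x ∈ F, |x| ≤ (R : ℤ)) → ∃ δ : ℝ,
      ((∃ a ∈ F, 0 < s * a ∧ ¬ (3 : ℤ) ∣ a) → 0 < δ) ∧
      HasDensity (fun n => ∃ k : ℕ, (T d)^[k] (s * n) ∈ F) δ ∧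
      ∀ v : ℝ, 0 ≤ v → v < c → ∀ τ : ℝ, 0 < τ →
      (∃ N₀ : ℕ, ∀ N : ℕ, N₀ ≤ N → ∀ q : ℕ, InRange ε N q →
        ∀ A : Finset ℕ, FlatSet q η A → (q : ℝ) * (N : ℝ) ^ (-v) ≤ A.card →
        |count (fun n => n % q ∈ A ∧ ∃ k : ℕ, (T d)^[k] (s * n) ∈ F) N - δ * (A.card / q * N)| ≤
          τ * (A.card / q * N)) ∧
      ∀ (x : ℝ) (r : ℕ) (a b : ℤ), 1 ≤ r → ∃ N₀ : ℕ, ∀ N : ℕ, N₀ ≤ N → ∀ q : ℕ, InRange ε N q →
        ∀ A : Finset ℕ, FlatSet q η A → (q : ℝ) * (N : ℝ) ^ (-v) ≤ A.card →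
        |count (fun n => n % q ∈ A ∧ ∃ k : ℕ, (k : ℝ) ≤ bound x n ∧ FirstHit d F k (s * n) ∧
            (k : ℤ) ≡ a [ZMOD r] ∧ (odds d k (s * n) : ℤ) ≡ b [ZMOD r]) N - δ * Phi x / r ^ 2 * (A.card / q * N)| ≤
          τ * (A.card / q * N)) ∧
    (∀ v : ℝ, 0 ≤ v → v < c → ∀ ψ : ℕ → ℝ, Tendsto ψ atTop (𝓝 0) →
      (∃ F : Finset ℤ, (∀ x ∈ F, |x| ≤ (R : ℤ)) ∧ ∀ s : ℤ, s = 1 ∨ s = -1 → ∃ᶠ N : ℕ in atTop, ∃ q : ℕ,
        InRange ε N q ∧ ∃ A : Finset ℕ, FlatSet q η A ∧ (q : ℝ) * (N : ℝ) ^ (-v) ≤ A.card ∧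
        count (fun n => n % q ∈ A ∧ ¬ ∃ k : ℕ, (T d)^[k] (s * n) ∈ F) N ≤ ψ N * (A.card / q * N)) →
      ∃ F : Finset ℤ, ∀ x : ℤ, ∃ k : ℕ, (T d)^[k] x ∈ F) ∧
    (∀ (q : ℕ) (χ : DirichletCharacter ℂ q), 1 ≤ q → χ.IsPrimitive → Flat q η (fun n => χ n)) ∧
    (∀ (q : ℕ) (a b : ℤ), Odd q → IsCoprime a q →
      Flat q η (fun n => Complex.exp (2 * Real.pi * Complex.I * (a * n ^ 2 + b * n) / q))) ∧
    (∀ p k : ℕ, p.Prime → 1 ≤ k → (k : ℝ) + 1 ≤ (p : ℝ) ^ (2 * η) → ∀ A : Finset ℕ, A ⊆ Finset.range p →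
      (∀ b : ℕ, Nat.Coprime b p → ∀ a ∈ A, b ^ k * a % p ∈ A) → FlatSet p η A) := by
  classical
  have hodd : Odd d := Int.odd_iff.2 hd
  intro ε hε hε1 R
  obtain ⟨k0, hk0⟩ := ksync_fe (adm3 hodd) R
  obtain ⟨η, c, K, hη, hc0, hc1, hK, S₀⟩ := scaleF (adm3 hodd) 2 k0 0 hε hε1
  have hFl : ∀ {q : ℕ} {f : ℕ → ℂ}, Flat q η f → FlatP q η f := fun h => ⟨h.1, h.2, h.3⟩
  have hlF : ∀ {q : ℕ} {f : ℕ → ℂ}, FlatP q η f → Flat q η f := fun h => ⟨h.1, h.2, h.3⟩
  have hFs : ∀ {q : ℕ} {A : Finset ℕ}, FlatSet q η A → FlatI q η A := fun h => ⟨h.1, hFl h.2⟩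
  have hrho : ∀ {N q : ℕ} {A : Finset ℕ} {v : ℝ}, Odd q → (q : ℝ) * (N : ℝ) ^ (-v) ≤ A.card → (N : ℝ) ^ (-v) ≤ (A.card / q : ℝ) := by
    intro N q A v hq h
    have hq0 : 0 < q := hq.pos
    have hqr : (0 : ℝ) < q := by exact_mod_cast hq0
    rw [le_div_iff₀ hqr]
    linarith
  have hrho1 : ∀ {q : ℕ} {A : Finset ℕ}, Odd q → A ⊆ Finset.range q → (A.card / q : ℝ) ≤ 1 := by
    intro q A hq hA
    have hq0 : 0 < q := hq.pos
    have hqr : (0 : ℝ) < q := by exact_mod_cast hq0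
    rw [div_le_one hqr]
    have := Finset.card_le_card hA
    rw [Finset.card_range] at this
    exact_mod_cast this
  have hcnt : ∀ (E P : ℕ → Prop) (X : ℕ), count (fun n => E n ∧ P n) X = ∑ n ∈ Finset.Icc 1 X, ind E n * ind P n := by
    intro E P X
    rw [count_ind]
    apply Finset.sum_congr rfl
    intro n _
    exact Pool.Agent.Run7.h439.DC.ind_and _ _ n
  have hks : ∀ s : ℤ, s = 1 ∨ s = -1 → ∀ F : Finset ℤ, (∀ x ∈ F, |x| ≤ (R : ℤ)) → ∀ f : ℤ → ℝ, OfFirstHit d F f →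
      KSync 2 m3 (r3 d) s 2 k0 (fun n => f (s * n)) := by
    intro s hs F hF f hf
    exact hk0 s hs _ (fun x hx => hF x hx) _ ((ofH hf).ef s)
  have hno : ∀ (F : Finset ℤ) (y : ℤ), (∀ k, (T d)^[k] y ∉ F) → ¬ ∃ k : ℕ, (T d)^[k] y ∈ F := by
    rintro F y h ⟨k, hk⟩
    exact h k hk
  have hmain : ∀ s : ℤ, s = 1 ∨ s = -1 → ∀ F : Finset ℤ, (∀ x ∈ F, |x| ≤ (R : ℤ)) → ∃ δ : ℝ,
      ((∃ a ∈ F, 0 < s * a ∧ ¬ (3 : ℤ) ∣ a) → 0 < δ) ∧ δ ≤ 1 ∧
      HasDensity (fun n => ∃ k : ℕ, (T d)^[k] (s * n) ∈ F) δ ∧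
      ∀ v : ℝ, 0 ≤ v → v < c → ∀ τ : ℝ, 0 < τ →
      (∃ N₀ : ℕ, 1 ≤ N₀ ∧ ∀ N : ℕ, N₀ ≤ N → ∀ q : ℕ, InRange ε N q →
        ∀ A : Finset ℕ, FlatSet q η A → (q : ℝ) * (N : ℝ) ^ (-v) ≤ A.card →
        |count (fun n => n % q ∈ A ∧ ∃ k : ℕ, (T d)^[k] (s * n) ∈ F) N - δ * (A.card / q * N)| ≤
          τ * (A.card / q * N) ∧
        |count (fun n => n % q ∈ A ∧ ¬ ∃ k : ℕ, (T d)^[k] (s * n) ∈ F) N - (1 - δ) * (A.card / q * N)| ≤
          τ * (A.card / q * N)) ∧
      ∀ (x : ℝ) (r : ℕ) (a b : ℤ), 1 ≤ r → ∃ N₀ : ℕ, ∀ N : ℕ, N₀ ≤ N → ∀ q : ℕ, InRange ε N q →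
        ∀ A : Finset ℕ, FlatSet q η A → (q : ℝ) * (N : ℝ) ^ (-v) ≤ A.card →
        |count (fun n => n % q ∈ A ∧ ∃ k : ℕ, (k : ℝ) ≤ bound x n ∧ FirstHit d F k (s * n) ∧
            (k : ℤ) ≡ a [ZMOD r] ∧ (odds d k (s * n) : ℤ) ≡ b [ZMOD r]) N - δ * Phi x / r ^ 2 * (A.card / q * N)| ≤
          τ * (A.card / q * N) := by
    intro s hs F hF
    obtain ⟨δ, _, hpos, hδ, hlaw⟩ := Pool.Agent.H499R2.LT.joint_side hodd hd3 hs F
    have hδ' : HasDensity (fun n => ∃ k : ℕ, (T d)^[k] (s * n) ∈ F) δ := hδ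
    have hM : Mn (ind (fun n : ℕ => ∃ k : ℕ, (T d)^[k] (s * n) ∈ F)) δ := Pool.Agent.Y965.PL.Mn_of_Dn hδ
    have hδ1 : δ ≤ 1 := by
      refine le_of_tendsto hδ' ?_
      filter_upwards [eventually_ge_atTop 1] with N hN
      have hN0 : (0 : ℝ) < N := by exact_mod_cast hN
      rw [div_le_one hN0, count_ind]
      refine (Finset.sum_le_sum (g := fun _ => (1 : ℝ)) fun n _ => Pool.Agent.Y965.PL.ind_le_one _ n).trans ?_
      rw [Finset.sum_const, Nat.card_Icc, Nat.add_sub_cancel, nsmul_eq_mul, mul_one]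
    have hfun : ∀ P : ℤ → Prop, (∀ (k : ℕ) (x y : ℤ), FirstHit d F k x → FirstHit d F k y → (T d)^[k] x = (T d)^[k] y →
        odds d k x = odds d k y → (P x ↔ P y)) → (∀ x y : ℤ, (∀ k, (T d)^[k] x ∉ F) → (∀ k, (T d)^[k] y ∉ F) → (P x ↔ P y)) →
        KSync 2 m3 (r3 d) s 2 k0 (ind (fun n : ℕ => P (s * n))) := by
      intro P h1 h2
      have h3 := hks s hs F hF (fun y => if P y then 1 else 0) ⟨fun y => by split_ifs <;> simp,
        fun k x y a1 a2 a3 a4 => by simp only [h1 k x y a1 a2 a3 a4], fun x y a1 a2 => by simp only [h2 x y a1 a2]⟩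
      have e : (fun n : ℕ => (fun y : ℤ => if P y then (1 : ℝ) else 0) (s * (n : ℤ))) = ind (fun n : ℕ => P (s * n)) := by
        funext n
        by_cases hn : P (s * n)
        · rw [ind_pos (P := fun n : ℕ => P (s * n)) hn]; exact if_pos hn
        · rw [ind_neg (P := fun n : ℕ => P (s * n)) hn]; exact if_neg hn
      rw [e] at h3
      exact h3
    have hS1 := hfun (fun y => ∃ k : ℕ, (T d)^[k] y ∈ F) (fun k x y a1 a2 _ _ => ⟨fun _ => ⟨k, a2.1⟩, fun _ => ⟨k, a1.1⟩⟩)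
      (fun x y a1 a2 => ⟨fun h => absurd h (hno F x a1), fun h => absurd h (hno F y a2)⟩)
    have hS2 := hfun (fun y => ¬ ∃ k : ℕ, (T d)^[k] y ∈ F) (fun k x y a1 a2 _ _ => not_congr ⟨fun _ => ⟨k, a2.1⟩, fun _ => ⟨k, a1.1⟩⟩)
      (fun x y a1 a2 => not_congr ⟨fun h => absurd h (hno F x a1), fun h => absurd h (hno F y a2)⟩)
    have hM2 : Mn (ind (fun n : ℕ => ¬ ∃ k : ℕ, (T d)^[k] (s * n) ∈ F)) (1 - δ) := by
      unfold Mn at hM ⊢
      have h6 : Tendsto (fun _ : ℕ => (1 : ℝ)) atTop (𝓝 1) := tendsto_const_nhds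
      refine (h6.sub hM).congr' ?_
      filter_upwards [eventually_ge_atTop 1] with N hN
      have hx0 : (N : ℝ) ≠ 0 := by
        have : (0 : ℝ) < N := by exact_mod_cast hN
        exact this.ne'
      have e : ∀ n ∈ Finset.Icc 1 N, ind (fun n : ℕ => ¬ ∃ k : ℕ, (T d)^[k] (s * n) ∈ F) n =
          1 - ind (fun n : ℕ => ∃ k : ℕ, (T d)^[k] (s * n) ∈ F) n := by
        intro n _
        by_cases hn : ∃ k : ℕ, (T d)^[k] (s * n) ∈ F
        · rw [ind_pos (P := fun n : ℕ => ∃ k : ℕ, (T d)^[k] (s * n) ∈ F) hn,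
            ind_neg (P := fun n : ℕ => ¬ ∃ k : ℕ, (T d)^[k] (s * n) ∈ F) (fun h => h hn), sub_self]
        · rw [ind_neg (P := fun n : ℕ => ∃ k : ℕ, (T d)^[k] (s * n) ∈ F) hn,
            ind_pos (P := fun n : ℕ => ¬ ∃ k : ℕ, (T d)^[k] (s * n) ∈ F) hn, sub_zero]
      rw [Finset.sum_congr rfl e, Finset.sum_sub_distrib, Finset.sum_const, Nat.card_Icc, Nat.add_sub_cancel, nsmul_eq_mul, mul_one]
      field_simp
    refine ⟨δ, hpos, hδ1, hδ', fun v hv0 hv τ hτ => ⟨?_, fun x r a b hr => ?_⟩⟩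
    · obtain ⟨N₀, hN₀⟩ := ((dens hM (C := K) hv hτ).and (dens hM2 (C := K) hv hτ)).exists_forall_of_atTop
      refine ⟨max N₀ 1, le_max_right _ _, fun N hN q hq A hA hcard => ?_⟩
      obtain ⟨k1, k2⟩ := hN₀ N ((le_max_left _ _).trans hN)
      have g1 := k1 (fun n => n % q ∈ A) (A.card / q) (hrho hq.1 hcard)
        (S₀.set1 hs ((le_max_right _ _).trans hN) hq.1.pos (Nat.coprime_two_left.2 hq.1) hq.2.1 hq.2.2 (hFs hA) hS1)
      have g2 := k2 (fun n => n % q ∈ A) (A.card / q) (hrho hq.1 hcard)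
        (S₀.set1 hs ((le_max_right _ _).trans hN) hq.1.pos (Nat.coprime_two_left.2 hq.1) hq.2.1 hq.2.2 (hFs hA) hS2)
      rw [hcnt, hcnt]
      exact ⟨g1, g2⟩
    · set Lev : ℕ → ℕ → Prop := fun k n => FirstHit d F k (s * n) ∧ (k : ℤ) ≡ a [ZMOD r] ∧
        (odds d k (s * n) : ℤ) ≡ b [ZMOD r] with hLev
      have huniq : ∀ i j n, Lev i n → Lev j n → i = j := by
        rintro i j n ⟨h1, _⟩ ⟨h2, _⟩
        exact FE_unique (fe_iff.2 h1) (fe_iff.2 h2)
      have hthb : ∀ n : ℕ, 1 ≤ n → th (2 / Real.log (4 / 3)) bH x n = bound x n := by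
        intro n hn
        rw [th_H x n hn, Pool.Agent.H499R2.LT.tb2 x n hn]
        rfl
      have hL : Mn (ind (fun n => ∃ j : ℕ, (j : ℝ) ≤ th (2 / Real.log (4 / 3)) bH x n ∧ Lev j n)) (δ * Phi x / r ^ 2) := by
        have h1 := Pool.Agent.Y965.PL.Mn_of_Dn (Pool.Agent.H499R2.LT.Dn_iff (Q := fun n => ∃ j : ℕ,
          (j : ℝ) ≤ th (2 / Real.log (4 / 3)) bH x n ∧ Lev j n) (fun n hn => ?_) (hlaw x r a b hr))
        · have e : δ / (r : ℝ) ^ 2 * Pool.Agent.H499R2.ND.Phi x = δ * Phi x / r ^ 2 := by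
            unfold Phi
            rw [← Pool.Agent.H499R2.ND.phi_cdf]
            ring
          rw [e] at h1
          exact h1
        · refine exists_congr fun k => ?_
          rw [th_H x n hn, od_ac, odds_eq]
          rfl
      have hA0 : (0 : ℝ) < 2 / Real.log (4 / 3) := div_pos (by norm_num) (Real.log_pos (by norm_num))
      obtain ⟨N₀, hN₀⟩ := (lawG huniq hA0 hL hK hv hc1.le hτ).exists_forall_of_atTop
      refine ⟨max N₀ 1, fun N hN q hq A hA hcard => ?_⟩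
      have g1 := hN₀ N ((le_max_left _ _).trans hN) (fun n => n % q ∈ A) (A.card / q) (hrho hq.1 hcard) (hrho1 hq.1 hA.1)
        (fun j => S₀.set1 hs ((le_max_right _ _).trans hN) hq.1.pos (Nat.coprime_two_left.2 hq.1) hq.2.1 hq.2.2 (hFs hA)
          (hfun (fun y => FirstHit d F j y ∧ (j : ℤ) ≡ a [ZMOD r] ∧ (odds d j y : ℤ) ≡ b [ZMOD r])
            (fun k x y a1 a2 _ a4 => by
              constructor
              · rintro ⟨h1, h2, h3⟩
                have := FE_unique (fe_iff.2 h1) (fe_iff.2 a1)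
                subst this
                exact ⟨a2, h2, by rw [← a4]; exact h3⟩
              · rintro ⟨h1, h2, h3⟩
                have := FE_unique (fe_iff.2 h1) (fe_iff.2 a2)
                subst this
                exact ⟨a1, h2, by rw [a4]; exact h3⟩)
            (fun x y a1 a2 => ⟨fun h => absurd h.1.1 (a1 j), fun h => absurd h.1.1 (a2 j)⟩)))
      rw [hcnt]
      refine le_trans (le_of_eq ?_) g1
      congr 2
      apply Finset.sum_congr rfl
      intro n hn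
      congr 1
      apply ind_congr
      rw [hthb n (Finset.mem_Icc.1 hn).1]
  refine ⟨η, c, K + 1, hη, hc0, hc1, by linarith, ?_, ?_, ?_, ?_, ?_, ?_⟩
  · intro N q hN hq g hg s hs F hF f hf X hX
    have h4 := S₀.fun1 hs hN hq.1.pos (Nat.coprime_two_left.2 hq.1) hq.2.1 hq.2.2 (hFl hg) (hks s hs F hF f hf) hX
    refine h4.trans ?_
    have : 0 ≤ (N : ℝ) ^ (1 - c) := by positivity
    nlinarith
  · intro s hs F hF
    obtain ⟨δ, h1, _, h2, h3⟩ := hmain s hs F hF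
    refine ⟨δ, h1, h2, fun v hv0 hv τ hτ => ?_⟩
    obtain ⟨⟨N₀, _, h4⟩, h5⟩ := h3 v hv0 hv τ hτ
    exact ⟨⟨N₀, fun N hN q hq A hA hcard => (h4 N hN q hq A hA hcard).1⟩, h5⟩
  · rintro v hv0 hv ψ hψ ⟨F, hF, hfr⟩
    have key : ∀ s : ℤ, s = 1 ∨ s = -1 → HasDensity (fun n => ∃ k : ℕ, (T d)^[k] (s * n) ∈ F) 1 := by
      intro s hs
      obtain ⟨δ, _, hδ1, hδ, h3⟩ := hmain s hs F hF
      have hone : δ = 1 := by
        by_contra hne
        have hlt : 0 < 1 - δ := by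
          have := lt_of_le_of_ne hδ1 hne
          linarith
        obtain ⟨⟨N₀, hN₀1, h4⟩, _⟩ := h3 v hv0 hv ((1 - δ) / 2) (by positivity)
        have hψ' := hψ.eventually (gt_mem_nhds (show (0 : ℝ) < (1 - δ) / 4 by positivity))
        obtain ⟨N, ⟨q, hq, A, hA, hcard, hfew⟩, hN, hψN⟩ :=
          ((hfr s hs).and_eventually ((eventually_ge_atTop N₀).and hψ')).exists
        have h5 := (h4 N hN q hq A hA hcard).2
        have hN1 : (1 : ℝ) ≤ N := by exact_mod_cast hN₀1.trans hN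
        have hρ := hrho (v := v) hq.1 hcard
        have hρ0 : 0 < (A.card / q : ℝ) := lt_of_lt_of_le (by positivity) hρ
        have h6 : 0 < (A.card / q : ℝ) * N := by positivity
        have h7 := (abs_le.1 h5).1
        nlinarith
      rw [← hone]; exact hδ
    refine Pool.Agent.H499R2.LT.zero_one hodd hd3 F ?_ ?_
    · have h1 := key 1 (Or.inl rfl)
      simp only [one_mul] at h1
      exact h1
    · have h1 := key (-1) (Or.inr rfl)
      simp only [neg_one_mul] at h1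
      exact h1
  · intro q χ hq hχ
    exact hlF (flatP_char hq hη.le hχ)
  · intro q a b hq hab
    exact hlF (flatP_quad hη.le hq hab b)
  · intro p k hp hk hkp A hA h
    have h5 := flatI_pow hp hk hkp hA h
    exact ⟨h5.1, hlF h5.2⟩

end Pool.Agent.Results.MP_d0d59f_nt.FlatResidues
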