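import Mathlib
import Pool.Agent.Run7.h263.ID.Key

set_option autoImplicit false

/-!
# Isolated members of the invariant sets of the `3x + d` maps, and a local form of Q1

Let `d` be odd and prime to `3`, and let `S` be a set of integers invariant under the `3x + d` map and
its inverse. Suppose that `S` and its complement contain integers `p` and `q` of sign `s`, prime to
`3`, which agree modulo `d` up to factors `2 ^ i 3 ^ j`. Then there are many odd `n` of sign `s` in `S`,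
in the classes `2 ^ i p` modulo `d`, such that no even `m` near `n` and congruent to `n` modulo `d`
is in `S`, where near means at a distance of at most `exp ((log |n|) ^ θ)`, `θ < 1/2`. So the basins
of two different cycles have many such isolated elements. For each `d`, a finite set which meets all
orbits exists if and only if some finite set is met infinitely often by the orbits of the integers of
absolute value at most `2 |d|` and the following rule has only finitely many exceptions: if the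
orbits of all even `m` near the odd number `n` and congruent to `n` modulo `d` meet it infinitely
often, then the orbit of `n` does.

Method. Almost all arithmetic progressions `n, n + d, ..., n + h d` with `h` up to
`exp (√(log n) / (log log n) ^ 16)` merge under some iterate (this is derived here from the starting
files on merging runs, `W38/CR`, for all odd `d`), so that a positive proportion of the
integers `z` lie in long intervals whose members in the class of `a` modulo `d` are all outside `S`.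
If an integer `z` of this kind is doubled `j` times, `[2 ^ j z, 2 ^ j (z + 1)]` contains `δ 2 ^ j`
elements of `S` in the class of `a`, for suitable large `j`, with `δ > 0` the density of these
elements. Follow one of them downwards: halve it, if it is even, and otherwise pass to an even element
nearby of the same class, and halve that. As the interval at the bottom contains no element in the
class, one meets an odd element without an even one nearby in its class.
-/

namespace Pool.Agent.Results.MP_d0d59f_nt.IsolatedIntegers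

open Filter

/-- The `3x + d` map on the integers. -/
def T (d x : ℤ) : ℤ := if x % 2 = 0 then x / 2 else (3 * x + d) / 2

/-- `S` is invariant under the `3x + d` map and its inverse. -/
def Invariant (d : ℤ) (S : Set ℤ) : Prop := ∀ x : ℤ, x ∈ S ↔ T d x ∈ S

/-- `x` and `y` agree modulo `d` up to a factor `2 ^ i * 3 ^ j`. -/
def Rel (d x y : ℤ) : Prop := ∃ i j : ℕ, x ≡ 2 ^ i * 3 ^ j * y [ZMOD d]

/-- The odd elements `n` of `S` such that no even `m ≡ n` modulo `d` at a distance of at most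
`w |n|` from `n` is in `S`. -/
def Isolated (d : ℤ) (w : ℕ → ℝ) (S : Set ℤ) : Set ℤ :=
  {n | n % 2 = 1 ∧ n ∈ S ∧
    ∀ m : ℤ, m % 2 = 0 → m ≡ n [ZMOD d] → |(m : ℝ) - n| ≤ w n.natAbs → m ∉ S}

/-- The integers of sign `s` in the classes `2 ^ i * a` modulo `d`. -/
def Classes (s d a : ℤ) : Set ℤ := {n | 0 < s * n ∧ ∃ i : ℕ, n ≡ 2 ^ i * a [ZMOD d]}

/-- The distance `exp ((log n) ^ θ)`. -/
noncomputable def radius (θ : ℝ) (n : ℕ) : ℝ := Real.exp (Real.log n ^ θ)

/-- The conclusions on the isolated members of `S` of sign `s` in the classes `2 ^ i * a`. -/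
def ManyIsolated (s d a : ℤ) (S : Set ℤ) : Prop :=
  (∀ M : ℝ, 0 ≤ M → ¬ Summable fun n : ↥(Isolated d (fun _ => M) S ∩ Classes s d a) =>
    1 / ((n : ℤ).natAbs : ℝ)) ∧
  ∀ θ : ℝ, 0 < θ → θ < 1 / 2 → (Isolated d (radius θ) S ∩ Classes s d a).Infinite ∧
    ¬ Summable fun n : ↥(Isolated d (radius θ) S ∩ Classes s d a) =>
      radius θ (n : ℤ).natAbs / ((n : ℤ).natAbs : ℝ)

/-- The integers whose orbit contains `c`. -/
def Basin (d c : ℤ) : Set ℤ := {x | ∃ k : ℕ, (T d)^[k] x = c}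

/-- The orbit of `x` meets `F` infinitely often. -/
def Meets (d : ℤ) (F : Set ℤ) (x : ℤ) : Prop := ∀ n : ℕ, ∃ j, n ≤ j ∧ (T d)^[j] x ∈ F

/-- `F` is finite, and the orbits of all `x` with `|x| ≤ 2 |d|` meet it infinitely often. -/
def Base (d : ℤ) (F : Set ℤ) : Prop := F.Finite ∧ ∀ x : ℤ, |x| ≤ 2 * |d| → Meets d F x

/-! ### proofs -/

open Pool.Agent.Run7.h263.ID (iso_ww iso_const Inv cyclic_three key)

open Pool.Agent.Run7.h195.Iso (ww one_le_ww)

theorem six {d : ℤ} (hd : Odd d) (h3 : ¬ (3 : ℤ) ∣ d) : d % 6 = 1 ∨ d % 6 = 5 := by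
  have := Int.odd_iff.1 hd
  omega

theorem compl_inv {d : ℤ} {S : Set ℤ} (hS : Invariant d S) : Invariant d Sᶜ :=
  fun x => not_congr (hS x)

theorem meets_inv (d : ℤ) (F : Set ℤ) : Invariant d {x | Meets d F x} := by
  intro x
  constructor
  · intro h n
    obtain ⟨j, hj, hF⟩ := h (n + 1)
    obtain ⟨i, rfl⟩ : ∃ i, j = i + 1 := ⟨j - 1, by omega⟩
    exact ⟨i, by omega, by rwa [Function.iterate_succ_apply] at hF⟩
  · intro h n
    obtain ⟨j, hj, hF⟩ := h n
    exact ⟨j + 1, by omega, by rwa [Function.iterate_succ_apply]⟩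

theorem basin_inv {d c : ℤ} {p : ℕ} (hp : 1 ≤ p) (hc : (T d)^[p] c = c) :
    Invariant d (Basin d c) := by
  intro x
  constructor
  · rintro ⟨j, hj⟩
    rcases j with _ | j
    · have hx : x = c := hj
      obtain ⟨m, rfl⟩ : ∃ m, p = m + 1 := ⟨p - 1, by omega⟩
      exact ⟨m, by rw [hx, ← Function.iterate_succ_apply]; exact hc⟩
    · exact ⟨j, by rwa [Function.iterate_succ_apply] at hj⟩
  · rintro ⟨j, hj⟩
    exact ⟨j + 1, by rwa [Function.iterate_succ_apply]⟩

theorem part_θ {d : ℤ} (hd : Odd d) (h3 : ¬ (3 : ℤ) ∣ d) {S : Set ℤ} (hS : Invariant d S)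
    {s p q a : ℤ} (hs : s = 1 ∨ s = -1) (hp : p ∈ S) (hq : q ∉ S) (hp0 : 0 < s * p)
    (hq0 : 0 < s * q) (hp3 : ¬ (3 : ℤ) ∣ p) (hq3 : ¬ (3 : ℤ) ∣ q) (hpa : Rel d a p)
    (hqa : Rel d a q) {θ : ℝ} (hθ : 0 < θ) (hθ1 : θ < 1 / 2) :
    ¬ Summable fun n : ↥(Isolated d (radius θ) S ∩ Classes s d a) =>
      radius θ (n : ℤ).natAbs / ((n : ℤ).natAbs : ℝ) :=
  iso_ww (six hd h3) hS a hs hp hp0 hp3 hpa hq hq0 hq3 hqa hθ hθ1

theorem summable_of_finite {A : Set ℤ} (h : A.Finite) (f : ℤ → ℝ) : Summable fun n : A => f n := by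
  have := h.to_subtype
  exact Summable.of_finite

theorem many {d : ℤ} (hd : Odd d) (h3 : ¬ (3 : ℤ) ∣ d) {S : Set ℤ} (hS : Invariant d S)
    {s p q a : ℤ} (hs : s = 1 ∨ s = -1) (hp : p ∈ S) (hq : q ∉ S) (hp0 : 0 < s * p)
    (hq0 : 0 < s * q) (hp3 : ¬ (3 : ℤ) ∣ p) (hq3 : ¬ (3 : ℤ) ∣ q) (hpa : Rel d a p)
    (hqa : Rel d a q) : ManyIsolated s d a S :=
  ⟨fun M hM => iso_const (six hd h3) hS a hs hp hp0 hp3 hpa hq hq0 hq3 hqa M hM,
    fun _ hθ hθ1 => ⟨fun hfin => part_θ hd h3 hS hs hp hq hp0 hq0 hp3 hq3 hpa hqa hθ hθ1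
      (summable_of_finite hfin fun n => radius _ n.natAbs / (n.natAbs : ℝ)), part_θ hd h3 hS hs hp hq hp0 hq0 hp3 hq3 hpa hqa hθ hθ1⟩⟩

theorem rel_refl (d x : ℤ) : Rel d x x := ⟨0, 0, by simp⟩

theorem basins {d : ℤ} (hd : Odd d) (h3 : ¬ (3 : ℤ) ∣ d) {s c c' a : ℤ} {k k' : ℕ}
    (hs : s = 1 ∨ s = -1) (hc : 0 < s * c) (hc' : 0 < s * c') (hk : 1 ≤ k) (hk' : 1 ≤ k')
    (h : (T d)^[k] c = c) (h' : (T d)^[k'] c' = c') (hne : ∀ j, (T d)^[j] c' ≠ c)
    (hr : Rel d a c) (hr' : Rel d a c') : ManyIsolated s d a (Basin d c) := by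
  have hd2 := Int.odd_iff.1 hd
  refine many hd h3 (basin_inv hk h) hs (p := c) (q := c') ⟨0, rfl⟩ ?_ hc hc' ?_ ?_ hr hr'
  · rintro ⟨j, hj⟩
    exact hne j hj
  · exact cyclic_three h3 hd2 (by rintro rfl; simp at hc) hk h
  · exact cyclic_three h3 hd2 (by rintro rfl; simp at hc') hk' h'

theorem iter1 (j : ℕ) : (T 5)^[j] 1 = 1 ∨ (T 5)^[j] 1 = 4 ∨ (T 5)^[j] 1 = 2 := by
  induction j with
  | zero => left; rfl
  | succ j ih =>
    rw [Function.iterate_succ_apply']
    rcases ih with h | h | h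
    · right; left; rw [h]; decide
    · right; right; rw [h]; decide
    · left; rw [h]; decide

theorem iter19 (j : ℕ) : (T 5)^[j] 19 = 19 ∨ (T 5)^[j] 19 = 31 ∨ (T 5)^[j] 19 = 49 ∨
    (T 5)^[j] 19 = 76 ∨ (T 5)^[j] 19 = 38 := by
  induction j with
  | zero => left; rfl
  | succ j ih =>
    rw [Function.iterate_succ_apply']
    rcases ih with h | h | h | h | h
    · right; left; rw [h]; decide
    · right; right; left; rw [h]; decide
    · right; right; right; left; rw [h]; decide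
    · right; right; right; right; rw [h]; decide
    · left; rw [h]; decide

theorem rel5 {a c : ℤ} (ha : ¬ (5 : ℤ) ∣ a) (hc : ¬ (5 : ℤ) ∣ c) : Rel 5 a c := by
  have h1 : a % 5 = 1 ∨ a % 5 = 2 ∨ a % 5 = 3 ∨ a % 5 = 4 := by omega
  have h2 : c % 5 = 1 ∨ c % 5 = 2 ∨ c % 5 = 3 ∨ c % 5 = 4 := by omega
  have key : ∀ i : ℕ, (2 ^ i * c - a) % 5 = 0 → Rel 5 a c := by
    intro i h
    refine ⟨i, 0, ?_⟩
    rw [pow_zero, mul_one, Int.modEq_iff_dvd]
    omega
  rcases h1 with h1 | h1 | h1 | h1 <;> rcases h2 with h2 | h2 | h2 | h2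
  all_goals first
    | exact key 0 (by norm_num; omega)
    | exact key 1 (by norm_num; omega)
    | exact key 2 (by norm_num; omega)
    | exact key 3 (by norm_num; omega)

theorem five {c : ℤ} (hc : c = 1 ∨ c = 19 ∨ c = 23 ∨ c = 187 ∨ c = 347) {a : ℤ}
    (ha : ¬ (5 : ℤ) ∣ a) : ManyIsolated 1 5 a (Basin 5 c) := by
  have hd : Odd (5 : ℤ) := by decide
  have h3 : ¬ (3 : ℤ) ∣ 5 := by decide
  have p1 : (T 5)^[3] 1 = 1 := by decide
  have p19 : (T 5)^[5] 19 = 19 := by decide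
  have h1 : ∀ c : ℤ, 4 < c → ∀ j, (T 5)^[j] 1 ≠ c := by
    intro c hc j hj
    rcases iter1 j with h | h | h <;> omega
  rcases hc with rfl | rfl | rfl | rfl | rfl
  · refine basins hd h3 (Or.inl rfl) (by norm_num) (by norm_num) (by norm_num) (by norm_num) p1 p19 ?_
      (rel5 ha (by norm_num)) (rel5 ha (by norm_num))
    intro j hj
    rcases iter19 j with h | h | h | h | h <;> omega
  · exact basins hd h3 (Or.inl rfl) (by norm_num) (by norm_num) (by norm_num) (by norm_num) p19 p1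
      (h1 _ (by norm_num)) (rel5 ha (by norm_num)) (rel5 ha (by norm_num))
  · exact basins hd h3 (Or.inl rfl) (by norm_num) (by norm_num) (k := 5) (by norm_num) (by norm_num)
      (by decide) p1 (h1 _ (by norm_num)) (rel5 ha (by norm_num)) (rel5 ha (by norm_num))
  · exact basins hd h3 (Or.inl rfl) (by norm_num) (by norm_num) (k := 27) (by norm_num) (by norm_num)
      (by decide) p1 (h1 _ (by norm_num)) (rel5 ha (by norm_num)) (rel5 ha (by norm_num))
  · exact basins hd h3 (Or.inl rfl) (by norm_num) (by norm_num) (k := 27) (by norm_num) (by norm_num)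
      (by decide) p1 (h1 _ (by norm_num)) (rel5 ha (by norm_num)) (rel5 ha (by norm_num))

theorem meets_all {d : ℤ} {F : Set ℤ} (h : ∀ x, ∃ j, (T d)^[j] x ∈ F) (x : ℤ) : Meets d F x := by
  intro n
  obtain ⟨j, hj⟩ := h ((T d)^[n] x)
  exact ⟨j + n, by omega, by rwa [← Function.iterate_add_apply] at hj⟩

theorem near {d n : ℤ} {θ : ℝ} (hn : n % 2 = 1) (hd : d % 2 = 1)
    (h : |(d : ℝ)| ≤ radius θ n.natAbs) :
    (n + d) % 2 = 0 ∧ n + d ≡ n [ZMOD d] ∧ |((n + d : ℤ) : ℝ) - n| ≤ radius θ n.natAbs := by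
  refine ⟨by omega, ?_, ?_⟩
  · rw [Int.modEq_iff_dvd]
    exact ⟨-1, by ring⟩
  · push_cast
    rwa [add_sub_cancel_left]

theorem far (d : ℤ) {θ : ℝ} (hθ : 0 < θ) :
    ∀ᶠ n : ℤ in cofinite, |(d : ℝ)| ≤ radius θ n.natAbs := by
  have h1 : Tendsto (fun n : ℕ => radius θ n) atTop atTop := by
    unfold radius
    exact Real.tendsto_exp_atTop.comp ((tendsto_rpow_atTop hθ).comp
      (Real.tendsto_log_atTop.comp tendsto_natCast_atTop_atTop))
  obtain ⟨N, hN⟩ := (h1.eventually (eventually_ge_atTop (|(d : ℝ)|))).exists_forall_of_atTop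
  rw [eventually_cofinite]
  apply (Set.finite_Icc (-(N : ℤ)) N).subset
  intro n hn
  by_contra hcon
  apply hn
  apply hN
  rw [Set.mem_Icc] at hcon
  omega

theorem step13 {d : ℤ} (hd : Odd d) {θ : ℝ} (hθ : 0 < θ)
    (h : ∃ F : Set ℤ, F.Finite ∧ ∀ x, ∃ j, (T d)^[j] x ∈ F) :
    ∃ F : Set ℤ, Base d F ∧ ∀ᶠ n : ℤ in cofinite, n % 2 = 1 → Meets d F n →
      ∃ m : ℤ, m % 2 = 0 ∧ m ≡ n [ZMOD d] ∧ |(m : ℝ) - n| ≤ radius θ n.natAbs ∧ Meets d F m := by
  obtain ⟨F, hF, hM⟩ := h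
  refine ⟨F, ⟨hF, fun x _ => meets_all hM x⟩, ?_⟩
  filter_upwards [far d hθ] with n hn h1 _
  obtain ⟨h2, h3, h4⟩ := near h1 (Int.odd_iff.1 hd) hn
  exact ⟨n + d, h2, h3, h4, meets_all hM _⟩

theorem fin_iso {d : ℤ} {w : ℕ → ℝ} {S : Set ℤ} (h : ∀ᶠ n : ℤ in cofinite, n ∉ Isolated d w S)
    (g : ℕ → ℝ) : Summable fun n : ↥(Isolated d w S) => g (n : ℤ).natAbs := by
  rw [eventually_cofinite] at h
  have h1 : (Isolated d w S).Finite := by simpa using h
  exact summable_of_finite h1 fun n => g n.natAbs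

theorem step24 {d : ℤ} {θ : ℝ} {F : Set ℤ} (h : ∀ᶠ n : ℤ in cofinite, n % 2 = 1 →
      (∀ m : ℤ, m % 2 = 0 → m ≡ n [ZMOD d] → |(m : ℝ) - n| ≤ radius θ n.natAbs → Meets d F m) →
      Meets d F n) :
    Summable fun n : ↥(Isolated d (radius θ) {x | ¬ Meets d F x}) =>
      radius θ (n : ℤ).natAbs / ((n : ℤ).natAbs : ℝ) := by
  refine fin_iso ?_ fun n => radius θ n / (n : ℝ)
  filter_upwards [h] with n hn hn'
  obtain ⟨h3, h4, h5⟩ := hn'
  exact h4 (hn h3 fun m hm1 hm2 hm3 => not_not.1 (h5 m hm1 hm2 hm3))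

theorem step35 {d : ℤ} {θ : ℝ} {F : Set ℤ} (h : ∀ᶠ n : ℤ in cofinite, n % 2 = 1 → Meets d F n →
      ∃ m : ℤ, m % 2 = 0 ∧ m ≡ n [ZMOD d] ∧ |(m : ℝ) - n| ≤ radius θ n.natAbs ∧ Meets d F m) :
    Summable fun n : ↥(Isolated d (radius θ) {x | Meets d F x}) =>
      radius θ (n : ℤ).natAbs / ((n : ℤ).natAbs : ℝ) := by
  refine fin_iso ?_ fun n => radius θ n / (n : ℝ)
  filter_upwards [h] with n hn hn'
  obtain ⟨h3, h4, h5⟩ := hn'
  obtain ⟨m, hm1, hm2, hm3, hm4⟩ := hn h3 h4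
  exact h5 m hm1 hm2 hm3 hm4

theorem sub {d : ℤ} {w : ℕ → ℝ} {S : Set ℤ} (s a : ℤ) {g : ℕ → ℝ}
    (h : Summable fun n : ↥(Isolated d w S) => g (n : ℤ).natAbs) :
    Summable fun n : ↥(Isolated d w S ∩ Classes s d a) => g (n : ℤ).natAbs :=
  h.comp_injective (Set.inclusion_injective Set.inter_subset_left)

theorem step41 {d : ℤ} (hd : Odd d) (h3 : ¬ (3 : ℤ) ∣ d) {θ : ℝ} (hθ : 0 < θ) (hθ1 : θ < 1 / 2)
    {F : Set ℤ} (hF : Base d F)
    (h : Summable fun n : ↥(Isolated d (radius θ) {x | ¬ Meets d F x}) =>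
      radius θ (n : ℤ).natAbs / ((n : ℤ).natAbs : ℝ)) (x : ℤ) : ∃ j, (T d)^[j] x ∈ F := by
  by_contra hcon
  push Not at hcon
  have hx' : x ∉ {x | Meets d F x} := by
    intro hM
    obtain ⟨j, _, hj⟩ := hM 0
    exact hcon j hj
  obtain ⟨s, p, q, hs, hp, hq, hp0, hq0, hp3, hq3, hpq⟩ :=
    key (Int.odd_iff.1 hd) h3 (G := {x | Meets d F x}) (meets_inv d F) hF.2 hx'
  exact part_θ hd h3 (compl_inv (meets_inv d F)) hs (p := p) (q := q) hp (not_not.2 hq) hp0 hq0
    hp3 hq3 (rel_refl d p) ⟨0, 0, by simpa using hpq⟩ hθ hθ1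
    (sub s p (g := fun n => radius θ n / (n : ℝ)) h)

theorem step51 {d : ℤ} (hd : Odd d) (h3 : ¬ (3 : ℤ) ∣ d) {θ : ℝ} (hθ : 0 < θ) (hθ1 : θ < 1 / 2)
    {F : Set ℤ} (hF : Base d F)
    (h : Summable fun n : ↥(Isolated d (radius θ) {x | Meets d F x}) =>
      radius θ (n : ℤ).natAbs / ((n : ℤ).natAbs : ℝ)) (x : ℤ) : ∃ j, (T d)^[j] x ∈ F := by
  by_contra hcon
  push Not at hcon
  have hx' : x ∉ {x | Meets d F x} := by
    intro hM
    obtain ⟨j, _, hj⟩ := hM 0
    exact hcon j hj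
  obtain ⟨s, p, q, hs, hp, hq, hp0, hq0, hp3, hq3, hpq⟩ :=
    key (Int.odd_iff.1 hd) h3 (G := {x | Meets d F x}) (meets_inv d F) hF.2 hx'
  exact part_θ hd h3 (meets_inv d F) hs (p := q) (q := p) hq hp hq0 hp0 hq3 hp3
    ⟨0, 0, by simpa using hpq⟩ (rel_refl d p) hθ hθ1
    (sub s p (g := fun n => radius θ n / (n : ℝ)) h)

/-- (1) Let `d` be odd and prime to `3`, and let the set `S` of integers be invariant under the
`3x + d` map and its inverse. Let `s = 1` or `s = -1`, and suppose that there are `p` in `S` and `q`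
outside `S`, of sign `s` and prime to `3`, such that `a`, `p` and `q` agree modulo `d` up to factors
`2 ^ i * 3 ^ j`. For every `M`, the odd `n` in `S` of sign `s`, congruent to some `2 ^ i * a` modulo
`d`, such that no even `m ≡ n` modulo `d` at a distance of at most `M` from `n` is in `S`, have a
divergent sum of the `1 / |n|`. For `0 < θ < 1/2` there are infinitely many such `n` for the distance
`exp ((log |n|) ^ θ)`, and the sum of the `exp ((log |n|) ^ θ) / |n|` over them diverges.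

(2) In particular this is true for the set of the integers whose orbit enters the cycle of a periodic
point `c` if there is another cycle with an element `c'` of the same sign such that `a`, `c` and `c'`
agree modulo `d` up to factors `2 ^ i * 3 ^ j`; for instance for `d = 5`, `s = 1`, all `a` prime to
`5` and the cycles of `1`, `19`, `23`, `187` and `347`.

(3) Let `d` be odd and prime to `3`, and `0 < θ < 1/2`. The following are equivalent: (i) there is a
finite set which meets all orbits; (ii) there is a finite set `F` such that the orbits of all `x` with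
`|x| ≤ 2 |d|` meet `F` infinitely often, and for all but finitely many odd `n`, if the orbits of all
even `m ≡ n` modulo `d` at a distance of at most `exp ((log |n|) ^ θ)` from `n` meet `F` infinitely
often, then so does the orbit of `n`; (iii) there is a finite set `F` such that the orbits of all `x`
with `|x| ≤ 2 |d|` meet `F` infinitely often, and for all but finitely many odd `n` whose orbit meets
`F` infinitely often, some even `m ≡ n` modulo `d` at a distance of at most `exp ((log |n|) ^ θ)` from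
`n` has the same property; (iv) the same as (ii), with convergence of the sum of
`exp ((log |n|) ^ θ) / |n|` over the exceptions `n` instead of finiteness; (v) the same for (iii). -/
theorem result :
    (∀ d : ℤ, Odd d → ¬ (3 : ℤ) ∣ d → ∀ S : Set ℤ, Invariant d S → ∀ s p q a : ℤ,
      (s = 1 ∨ s = -1) → p ∈ S → q ∉ S → 0 < s * p → 0 < s * q → ¬ (3 : ℤ) ∣ p → ¬ (3 : ℤ) ∣ q →
      Rel d a p → Rel d a q → ManyIsolated s d a S) ∧
    (∀ d : ℤ, Odd d → ¬ (3 : ℤ) ∣ d → ∀ s c c' a : ℤ, ∀ k k' : ℕ, (s = 1 ∨ s = -1) →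
      0 < s * c → 0 < s * c' → 1 ≤ k → 1 ≤ k' → (T d)^[k] c = c → (T d)^[k'] c' = c' →
      (∀ j, (T d)^[j] c' ≠ c) → Rel d a c → Rel d a c' → ManyIsolated s d a (Basin d c)) ∧
    (∀ c ∈ ({1, 19, 23, 187, 347} : Set ℤ), ∀ a : ℤ, ¬ (5 : ℤ) ∣ a →
      ManyIsolated 1 5 a (Basin 5 c)) ∧
    ∀ d : ℤ, Odd d → ¬ (3 : ℤ) ∣ d → ∀ θ : ℝ, 0 < θ → θ < 1 / 2 →
      [∃ F : Set ℤ, F.Finite ∧ ∀ x, ∃ j, (T d)^[j] x ∈ F,
        ∃ F : Set ℤ, Base d F ∧ ∀ᶠ n : ℤ in cofinite, n % 2 = 1 →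
          (∀ m : ℤ, m % 2 = 0 → m ≡ n [ZMOD d] → |(m : ℝ) - n| ≤ radius θ n.natAbs →
            Meets d F m) → Meets d F n,
        ∃ F : Set ℤ, Base d F ∧ ∀ᶠ n : ℤ in cofinite, n % 2 = 1 → Meets d F n →
          ∃ m : ℤ, m % 2 = 0 ∧ m ≡ n [ZMOD d] ∧ |(m : ℝ) - n| ≤ radius θ n.natAbs ∧ Meets d F m,
        ∃ F : Set ℤ, Base d F ∧
          Summable fun n : ↥(Isolated d (radius θ) {x | ¬ Meets d F x}) =>
            radius θ (n : ℤ).natAbs / ((n : ℤ).natAbs : ℝ),
        ∃ F : Set ℤ, Base d F ∧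
          Summable fun n : ↥(Isolated d (radius θ) {x | Meets d F x}) =>
            radius θ (n : ℤ).natAbs / ((n : ℤ).natAbs : ℝ)].TFAE := by
  refine ⟨fun d hd h3 S hS s p q a hs hp hq hp0 hq0 hp3 hq3 hpa hqa =>
      many hd h3 hS hs hp hq hp0 hq0 hp3 hq3 hpa hqa,
    fun d hd h3 s c c' a k k' hs hc hc' hk hk' h h' hne hr hr' =>
      basins hd h3 hs hc hc' hk hk' h h' hne hr hr',
    fun c hc a ha => five (by simpa using hc) ha, ?_⟩
  intro d hd h3 θ hθ hθ1
  tfae_have 1 → 2 := fun ⟨F, hF, h⟩ =>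
    ⟨F, ⟨hF, fun x _ => meets_all h x⟩, Eventually.of_forall fun n _ _ => meets_all h n⟩
  tfae_have 1 → 3 := step13 hd hθ
  tfae_have 2 → 4 := fun ⟨F, hF, h⟩ => ⟨F, hF, step24 h⟩
  tfae_have 3 → 5 := fun ⟨F, hF, h⟩ => ⟨F, hF, step35 h⟩
  tfae_have 4 → 1 := fun ⟨F, hF, h⟩ => ⟨F, hF.1, step41 hd h3 hθ hθ1 hF h⟩
  tfae_have 5 → 1 := fun ⟨F, hF, h⟩ => ⟨F, hF.1, step51 hd h3 hθ hθ1 hF h⟩
  tfae_finish

end Pool.Agent.Results.MP_d0d59f_nt.IsolatedIntegers
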